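import Mathlib

/-!
# A group of size aleph one with two sets whose Markov closures cannot be realised together

Index set `W` of order type `omega_1`.  A relation `r` on `W` is built from a map
`F : W → Finset W` all of whose fibres are unbounded.  The group is the class two nilpotent
group of exponent four generated by involutions `a i`, `b j` with `[a i, b j] = c ^ (r i j)`.
-/

set_option autoImplicit false

open Cardinal Set

namespace Pool.Agent.H11.Markov

/-- The index type: the least uncountable well-order. -/
abbrev W : Type := (Cardinal.aleph 1).ord.ToType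

theorem mk_W : #W = Cardinal.aleph 1 := Cardinal.mk_ord_toType _

instance : Infinite W := by
  rw [Cardinal.infinite_iff, mk_W]
  exact Cardinal.aleph0_le_aleph 1

theorem not_countable_W : ¬ (Set.univ : Set W).Countable := by
  intro h
  rw [Set.countable_univ_iff] at h
  have h2 : #W ≤ Cardinal.aleph0 := Cardinal.mk_le_aleph0
  rw [mk_W] at h2
  exact absurd h2 (not_le.2 Cardinal.aleph0_lt_aleph_one)

theorem countable_Iio (w : W) : (Set.Iio w).Countable := by
  rw [← Cardinal.le_aleph0_iff_set_countable, ← Cardinal.lt_aleph_one_iff]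
  have := Cardinal.mk_Iio_lt w (by simp)
  simpa using this

theorem countable_Iic (w : W) : (Set.Iic w).Countable := by
  rw [← Set.Iio_insert]
  exact (countable_Iio w).insert w

theorem exists_fibre : ∃ F : W → Finset W, ∀ (S : Finset W) (w : W), ∃ v, w < v ∧ F v = S := by
  have hcard : #W = #(Finset W × W) := by
    rw [Cardinal.mk_prod, Cardinal.lift_id, Cardinal.lift_id, Cardinal.mk_finset_of_infinite,
      mk_W, Cardinal.mul_eq_self (Cardinal.aleph0_le_aleph 1)]
  obtain ⟨e⟩ := Cardinal.eq.1 hcard
  refine ⟨fun w => (e w).1, fun S w => ?_⟩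
  by_contra hcon
  simp only [not_exists, not_and] at hcon
  have hsub : Set.range (fun u : W => e.symm (S, u)) ⊆ Set.Iic w := by
    rintro _ ⟨u, rfl⟩
    by_contra h
    rw [Set.mem_Iic, not_le] at h
    exact hcon _ h (by simp)
  have hc : (Set.range (fun u : W => e.symm (S, u))).Countable := (countable_Iic w).mono hsub
  have hinj : Function.Injective (fun u : W => e.symm (S, u)) := by
    intro u v h
    have := e.symm.injective h
    simpa using this
  refine not_countable_W ?_
  refine Set.countable_of_injective_of_countable_image (s := Set.univ) hinj.injOn ?_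
  rwa [Set.image_univ]

/-- The chosen map `W → Finset W` with unbounded fibres. -/
noncomputable def F : W → Finset W := exists_fibre.choose

theorem F_spec (S : Finset W) (w : W) : ∃ v, w < v ∧ F v = S := exists_fibre.choose_spec S w

/-- A countable subset of `W` is strictly bounded above. -/
theorem exists_bound (C : Set W) (hC : C.Countable) : ∃ w, ∀ c ∈ C, c < w := by
  by_contra hcon
  simp only [not_exists, not_forall, not_lt] at hcon
  refine not_countable_W ?_
  have : (Set.univ : Set W) ⊆ ⋃ c ∈ C, Set.Iic c := by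
    intro w _
    obtain ⟨c, hc, hle⟩ := hcon w
    exact Set.mem_biUnion hc hle
  exact (hC.biUnion fun c _ => countable_Iic c).mono this

/-- The relation on `W`. -/
def rel (i j : W) : Prop := (i < j ∧ i ∉ F j) ∨ (j < i ∧ j ∉ F i)

theorem rel_symm (i j : W) : rel i j ↔ rel j i := by
  unfold rel; exact or_comm

theorem rel_of_lt {i j : W} (h : i < j) : rel i j ↔ i ∉ F j := by
  unfold rel
  constructor
  · rintro (h1 | h1)
    · exact h1.2
    · exact absurd h (not_lt.2 h1.1.le)
  · intro h1
    exact Or.inl ⟨h, h1⟩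

open Classical in
/-- The indicator of `rel` with values in the field with two elements. -/
noncomputable def r (i j : W) : ZMod 2 := if rel i j then 1 else 0

theorem r_symm (i j : W) : r i j = r j i := by
  by_cases h : rel i j
  · have h' : rel j i := (rel_symm i j).1 h
    simp [r, h, h']
  · have h' : ¬ rel j i := fun h1 => h ((rel_symm i j).2 h1)
    simp [r, h, h']

theorem r_eq_zero {i j : W} : r i j = 0 ↔ ¬ rel i j := by
  unfold r
  split_ifs with h <;> simp [h]

theorem r_eq_one {i j : W} : r i j = 1 ↔ rel i j := by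
  unfold r
  split_ifs with h <;> simp [h]

/-- Combinatorial core, first part: every finite set of indices is unrelated to some index. -/
theorem exists_unrelated (S : Finset W) : ∃ i, ∀ j ∈ S, ¬ rel i j := by
  obtain ⟨w, hw⟩ := exists_bound S S.countable_toSet
  obtain ⟨v, hv, hF⟩ := F_spec S w
  refine ⟨v, fun j hj => ?_⟩
  have hlt : j < v := (hw j (by simpa using hj)).trans hv
  rw [rel_symm, rel_of_lt hlt, hF]
  exact not_not.2 hj

/-- Combinatorial core, second part: if no element of `I` is related to an element of `J`, then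
`I` or `J` consists of indices which are all related to one single index. -/
theorem cross (I J : Set W) (h : ∀ i ∈ I, ∀ j ∈ J, ¬ rel i j) :
    (∃ w, ∀ i ∈ I, rel i w) ∨ (∃ w, ∀ j ∈ J, rel w j) := by
  have key : ∀ C : Set W, C.Countable → ∃ w, ∀ i ∈ C, rel i w := by
    intro C hC
    obtain ⟨w, hw⟩ := exists_bound C hC
    obtain ⟨v, hv, hF⟩ := F_spec ∅ w
    refine ⟨v, fun i hi => ?_⟩
    rw [rel_of_lt ((hw i hi).trans hv), hF]
    simp
  by_cases hI : I.Countable
  · exact Or.inl (key I hI)
  by_cases hJ : J.Countable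
  · right
    obtain ⟨w, hw⟩ := key J hJ
    exact ⟨w, fun j hj => (rel_symm _ _).1 (hw j hj)⟩
  exfalso
  have hIinf : I.Infinite := fun hfin => hI hfin.countable
  obtain ⟨C, hCI, hCinf, hCc⟩ : ∃ C ⊆ I, C.Infinite ∧ C.Countable := by
    let f := hIinf.natEmbedding
    refine ⟨Set.range (fun n => (f n : W)), ?_, ?_, Set.countable_range _⟩
    · rintro _ ⟨n, rfl⟩
      exact (f n).2
    · exact Set.infinite_range_of_injective (Subtype.val_injective.comp f.injective)
  obtain ⟨w, hw⟩ := exists_bound C hCc
  obtain ⟨j, hj, hwj⟩ : ∃ j ∈ J, w < j := by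
    by_contra hcon
    simp only [not_exists, not_and, not_lt] at hcon
    exact hJ ((countable_Iic w).mono hcon)
  obtain ⟨i, hi, hiF⟩ : ∃ i ∈ C, i ∉ F j := by
    by_contra hcon
    simp only [not_exists, not_and, not_not] at hcon
    exact hCinf ((F j).finite_toSet.subset hcon)
  exact h i (hCI hi) j hj ((rel_of_lt ((hw i hi).trans hwj)).2 hiF)

/-- The space of finitely supported vectors. -/
abbrev V : Type := W →₀ ZMod 2

/-- The bilinear pairing. -/
noncomputable def beta : V →ₗ[ZMod 2] V →ₗ[ZMod 2] ZMod 2 :=
  Finsupp.lsum (ZMod 2) fun i => LinearMap.toSpanSingleton (ZMod 2) (V →ₗ[ZMod 2] ZMod 2)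
    (Finsupp.lsum (ZMod 2) fun j => LinearMap.toSpanSingleton (ZMod 2) (ZMod 2) (r i j))

theorem beta_single (i j : W) :
    beta (Finsupp.single i 1) (Finsupp.single j 1) = r i j := by
  simp [beta]

theorem beta_symm (a b : V) : beta a b = beta b a := by
  have : beta = beta.flip := by
    ext i j
    simp [beta, r_symm i j]
  conv_lhs => rw [this]
  rfl

/-- Nondegeneracy. -/
theorem beta_nondeg (a : V) (h : ∀ j, beta a (Finsupp.single j 1) = 0) : a = 0 := by
  by_contra ha
  obtain ⟨i, hi⟩ : ∃ i, i ∈ a.support := by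
    by_contra hcon
    simp only [not_exists] at hcon
    exact ha (Finsupp.support_eq_empty.1 (Finset.eq_empty_of_forall_notMem hcon))
  obtain ⟨w, hw⟩ := exists_bound a.support a.support.countable_toSet
  obtain ⟨v, hv, hF⟩ := F_spec (a.support.erase i) w
  have h1 := h v
  have hval : beta a (Finsupp.single v 1) = ∑ k ∈ a.support, a k * r k v := by
    conv_lhs => rw [← Finsupp.sum_single a]
    simp only [Finsupp.sum, map_sum, LinearMap.sum_apply]
    refine Finset.sum_congr rfl fun k _ => ?_
    have : Finsupp.single k (a k) = a k • Finsupp.single k (1 : ZMod 2) := by simp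
    rw [this, map_smul, LinearMap.smul_apply, beta_single, smul_eq_mul]
  rw [hval, Finset.sum_eq_single i] at h1
  · have hr : r i v = 1 := by
      rw [r_eq_one, rel_of_lt ((hw i (by simpa using hi)).trans hv), hF]
      simp
    rw [hr, mul_one] at h1
    exact (Finsupp.mem_support_iff.1 hi) h1
  · intro k hk hki
    have hr : r k v = 0 := by
      rw [r_eq_zero, rel_of_lt ((hw k (by simpa using hk)).trans hv), hF]
      simp [hki, Finsupp.mem_support_iff.1 hk]
    rw [hr, mul_zero]
  · intro hni
    exact absurd hi hni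

/-- The class two nilpotent group. -/
@[ext]
structure H where
  a : V
  b : V
  z : ZMod 2

namespace H

noncomputable instance : Mul H := ⟨fun g k => ⟨g.a + k.a, g.b + k.b, g.z + k.z + beta k.a g.b⟩⟩
noncomputable instance : One H := ⟨⟨0, 0, 0⟩⟩
noncomputable instance : Inv H := ⟨fun g => ⟨-g.a, -g.b, -g.z + beta g.a g.b⟩⟩

@[simp] theorem mul_a (g k : H) : (g * k).a = g.a + k.a := rfl
@[simp] theorem mul_b (g k : H) : (g * k).b = g.b + k.b := rfl
@[simp] theorem mul_z (g k : H) : (g * k).z = g.z + k.z + beta k.a g.b := rfl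
@[simp] theorem one_a : (1 : H).a = 0 := rfl
@[simp] theorem one_b : (1 : H).b = 0 := rfl
@[simp] theorem one_z : (1 : H).z = 0 := rfl
@[simp] theorem inv_a (g : H) : (g⁻¹).a = -g.a := rfl
@[simp] theorem inv_b (g : H) : (g⁻¹).b = -g.b := rfl
@[simp] theorem inv_z (g : H) : (g⁻¹).z = -g.z + beta g.a g.b := rfl

noncomputable instance : Group H :=
  Group.ofLeftAxioms
    (by
      intro x y z
      ext1
      · simp [add_assoc]
      · simp [add_assoc]
      · simp; ring)
    (by intro x; ext1 <;> simp)
    (by
      intro x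
      have h2 : (2 : ZMod 2) = 0 := rfl
      ext1
      · simp
      · simp
      · simp
        linear_combination (x.z + beta x.a x.b) * h2)

/-- The swap of the two abelian subgroups is an automorphism. -/
noncomputable def swap : H →* H where
  toFun g := ⟨g.b, g.a, g.z + beta g.a g.b⟩
  map_one' := by ext1 <;> simp
  map_mul' := by
    intro x y
    have h2 : (2 : ZMod 2) = 0 := rfl
    ext1
    · simp
    · simp
    · simp only [mul_a, mul_b, mul_z, map_add, LinearMap.add_apply]
      rw [beta_symm y.b x.a]
      linear_combination (beta y.a x.b) * h2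

theorem swap_injective : Function.Injective swap := by
  intro x y h
  have h1 : x.b = y.b := congrArg H.a h
  have h2 : x.a = y.a := congrArg H.b h
  have h3 : x.z + beta x.a x.b = y.z + beta y.a y.b := congrArg H.z h
  rw [h1, h2] at h3
  ext1
  · exact h2
  · exact h1
  · exact add_right_cancel h3

/-- The first family of involutions. -/
noncomputable def ea (i : W) : H := ⟨Finsupp.single i 1, 0, 0⟩
/-- The second family of involutions. -/
noncomputable def eb (j : W) : H := ⟨0, Finsupp.single j 1, 0⟩
/-- The central involution. -/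
def ec : H := ⟨0, 0, 1⟩

theorem ec_ne_one : ec ≠ 1 := by
  intro h
  have := congrArg H.z h
  simp [ec] at this

theorem swap_ea (i : W) : swap (ea i) = eb i := by
  ext1 <;> simp [swap, ea, eb]

theorem commutator_of_rel {i j : W} (h : rel i j) :
    ea i * eb j * (ea i)⁻¹ * (eb j)⁻¹ = ec := by
  have h1 : r i j = 1 := r_eq_one.2 h
  ext1
  · simp [ea, eb, ec]
  · simp [ea, eb, ec]
  · simp [ea, eb, ec, beta_single, h1]

/-- First coordinates, read through the pairing with the basis vectors of the second space. -/
noncomputable def p1 (g : H) : W → ZMod 2 := fun j => beta g.a (Finsupp.single j 1)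

theorem p1_injective_a {g k : H} (h : p1 g = p1 k) : g.a = k.a := by
  rw [← sub_eq_zero]
  apply beta_nondeg
  intro j
  have := congrFun h j
  simp only [p1] at this
  rw [map_sub, LinearMap.sub_apply, this, sub_self]

/-- The first topology: the weak topology on the first space, discrete elsewhere. -/
@[reducible]
noncomputable def T1 : TopologicalSpace H :=
  TopologicalSpace.induced p1 Pi.topologicalSpace ⊓
    TopologicalSpace.induced (fun g : H => (g.b, g.z)) ⊥

theorem continuous_p1 : @Continuous H (W → ZMod 2) T1 _ p1 :=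
  continuous_inf_dom_left continuous_induced_dom

theorem continuous_q : @Continuous H (V × ZMod 2) T1 ⊥ (fun g : H => (g.b, g.z)) :=
  continuous_inf_dom_right continuous_induced_dom

theorem beta_eq_sum (a b : V) :
    beta a b = b.sum (fun j c => c * beta a (Finsupp.single j 1)) := by
  conv_lhs => rw [← Finsupp.sum_single b]
  simp only [Finsupp.sum, map_sum]
  refine Finset.sum_congr rfl fun k _ => ?_
  have : Finsupp.single k (b k) = b k • Finsupp.single k (1 : ZMod 2) := by simp
  rw [this, map_smul, smul_eq_mul]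

theorem isTopologicalGroup_T1 : @IsTopologicalGroup H T1 _ := by
  let _ : TopologicalSpace V := ⊥
  have _ : DiscreteTopology V := ⟨rfl⟩
  let _ : TopologicalSpace H := T1
  have hq : Continuous (fun g : H => (g.b, g.z)) := by
    have h1 := continuous_q
    have h2 : (⊥ : TopologicalSpace (V × ZMod 2)) = instTopologicalSpaceProd :=
      (DiscreteTopology.eq_bot).symm
    rwa [h2] at h1
  have hrng : ∀ {X : Type} [TopologicalSpace X] (f : X → H), Continuous (fun x => p1 (f x)) →
      Continuous (fun x => ((f x).b, (f x).z)) → Continuous f := by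
    intro X _ f h1 h2
    refine continuous_inf_rng.2 ⟨continuous_induced_rng.2 h1, continuous_induced_rng.2 ?_⟩
    have h3 : (⊥ : TopologicalSpace (V × ZMod 2)) = instTopologicalSpaceProd :=
      (DiscreteTopology.eq_bot).symm
    rw [h3]
    exact h2
  have hev : Continuous (fun q : V × (W → ZMod 2) => q.1.sum (fun j c => c * q.2 j)) := by
    rw [continuous_prod_of_discrete_left]
    intro b
    simp only [Finsupp.sum]
    fun_prop
  have hb : Continuous (fun g : H => g.b) := continuous_fst.comp hq
  have hz : Continuous (fun g : H => g.z) := continuous_snd.comp hq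
  have hbeta : Continuous (fun p : H × H => beta p.2.a p.1.b) := by
    have : (fun p : H × H => beta p.2.a p.1.b) =
        (fun q : V × (W → ZMod 2) => q.1.sum (fun j c => c * q.2 j)) ∘
          (fun p : H × H => (p.1.b, p1 p.2)) := by
      funext p
      simp only [Function.comp]
      exact beta_eq_sum _ _
    rw [this]
    exact hev.comp ((hb.comp continuous_fst).prodMk (continuous_p1.comp continuous_snd))
  have hmul : Continuous (fun p : H × H => p.1 * p.2) := by
    refine hrng _ ?_ ?_
    · have : (fun p : H × H => p1 (p.1 * p.2)) = fun p : H × H => p1 p.1 + p1 p.2 := by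
        funext p j
        simp [p1]
      rw [this]
      exact (continuous_p1.comp continuous_fst).add (continuous_p1.comp continuous_snd)
    · simp only [mul_b, mul_z]
      refine Continuous.prodMk ?_ ?_
      · have h4 : Continuous (fun q : V × V => q.1 + q.2) := continuous_of_discreteTopology
        exact h4.comp ((hb.comp continuous_fst).prodMk (hb.comp continuous_snd))
      · exact ((hz.comp continuous_fst).add (hz.comp continuous_snd)).add hbeta
  have hinv : Continuous (fun g : H => g⁻¹) := by
    refine hrng _ ?_ ?_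
    · have : (fun g : H => p1 g⁻¹) = fun g : H => - p1 g := by
        funext g j
        simp [p1]
      rw [this]
      exact continuous_p1.neg
    · simp only [inv_b, inv_z]
      refine Continuous.prodMk ?_ ?_
      · have h4 : Continuous (fun q : V => -q) := continuous_of_discreteTopology
        exact h4.comp hb
      · exact hz.neg.add (hbeta.comp (continuous_id.prodMk continuous_id))
  exact { continuous_mul := hmul, continuous_inv := hinv }

theorem t2Space_T1 : @T2Space H T1 := by
  let _ : TopologicalSpace V := ⊥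
  have _ : DiscreteTopology V := ⟨rfl⟩
  let _ : TopologicalSpace H := T1
  have hq : Continuous (fun g : H => (g.b, g.z)) := by
    have h1 := continuous_q
    have h2 : (⊥ : TopologicalSpace (V × ZMod 2)) = instTopologicalSpaceProd :=
      (DiscreteTopology.eq_bot).symm
    rwa [h2] at h1
  refine T2Space.of_injective_continuous (f := fun g : H => (p1 g, (g.b, g.z))) ?_
    (continuous_p1.prodMk hq)
  intro g k h
  simp only [Prod.mk.injEq] at h
  ext1
  · exact p1_injective_a h.1
  · exact h.2.1
  · exact h.2.2

/-- The first family accumulates at the identity in the first topology. -/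
theorem one_mem_closure_T1 : (1 : H) ∈ @closure H T1 (Set.range ea) := by
  let _ : TopologicalSpace H := T1
  rw [mem_closure_iff_nhds]
  intro t ht
  have h1 : @nhds H T1 1 = Filter.comap p1 (nhds (p1 1)) ⊓
      Filter.comap (fun g : H => (g.b, g.z)) (@nhds (V × ZMod 2) ⊥ ((1 : H).b, (1 : H).z)) := by
    exact nhds_inf.trans (congrArg₂ (· ⊓ ·) (nhds_induced p1 1)
      (@nhds_induced (V × ZMod 2) H ⊥ (fun g : H => (g.b, g.z)) 1))
  rw [h1, Filter.mem_inf_iff_superset] at ht
  obtain ⟨t1, ht1, t2, ht2, hsub⟩ := ht
  rw [Filter.mem_comap] at ht1 ht2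
  obtain ⟨u1, hu1, hs1⟩ := ht1
  obtain ⟨u2, hu2, hs2⟩ := ht2
  have hp1 : p1 (1 : H) = 0 := by
    funext j
    simp [p1]
  rw [hp1, nhds_pi, Filter.mem_pi] at hu1
  obtain ⟨I, hI, u, hu, hIu⟩ := hu1
  obtain ⟨i, hi⟩ := exists_unrelated hI.toFinset
  refine ⟨ea i, hsub ⟨hs1 (hIu ?_), hs2 ?_⟩, i, rfl⟩
  · intro j hj
    have h2 : p1 (ea i) j = 0 := by
      simp only [p1, ea, beta_single]
      exact r_eq_zero.2 (hi j (hI.mem_toFinset.2 hj))
    rw [h2]
    exact mem_of_mem_nhds (hu j)
  · have := @mem_of_mem_nhds (V × ZMod 2) ⊥ _ _ hu2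
    simpa [ea] using this

/-- The second topology. -/
@[reducible]
noncomputable def T2 : TopologicalSpace H := TopologicalSpace.induced swap T1

theorem isTopologicalGroup_T2 : @IsTopologicalGroup H T2 _ := by
  let _ : TopologicalSpace H := T1
  have _ := isTopologicalGroup_T1
  exact topologicalGroup_induced swap

theorem t2Space_T2 : @T2Space H T2 :=
  @T2Space.of_injective_continuous H H T2 T1 t2Space_T1 swap swap_injective
    continuous_induced_dom

theorem swap_swap (g : H) : swap (swap g) = g := by
  have h2 : (2 : ZMod 2) = 0 := rfl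
  ext1
  · simp [swap]
  · simp [swap]
  · simp only [swap, MonoidHom.coe_mk, OneHom.coe_mk]
    rw [beta_symm g.b g.a]
    linear_combination (beta g.a g.b) * h2

/-- The second family accumulates at the identity in the second topology. -/
theorem one_mem_closure_T2 : (1 : H) ∈ @closure H T2 (Set.range eb) := by
  rw [@closure_induced H H T1 swap 1 (Set.range eb)]
  have h1 : swap '' Set.range eb = Set.range ea := by
    rw [← Set.range_comp]
    congr 1
  rw [h1, map_one]
  exact one_mem_closure_T1

section general

variable {G : Type*} [Group G] [TopologicalSpace G] [IsTopologicalGroup G] [T2Space G]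

theorem comm_nhds_left (k c : G) (hc1 : c ≠ 1) :
    {g : G | g * k * g⁻¹ * k⁻¹ ≠ c} ∈ nhds (1 : G) := by
  have hc : Continuous (fun g : G => g * k * g⁻¹ * k⁻¹) := by fun_prop
  have ho : IsOpen ((fun g : G => g * k * g⁻¹ * k⁻¹) ⁻¹' {c}ᶜ) :=
    isOpen_compl_singleton.preimage hc
  refine ho.mem_nhds ?_
  have h3 : (1 : G) * k * (1 : G)⁻¹ * k⁻¹ = 1 := by group
  rw [Set.mem_preimage, h3]
  exact fun h => hc1 h.symm

theorem comm_nhds_right (k c : G) (hc1 : c ≠ 1) :
    {g : G | k * g * k⁻¹ * g⁻¹ ≠ c} ∈ nhds (1 : G) := by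
  have hc : Continuous (fun g : G => k * g * k⁻¹ * g⁻¹) := by fun_prop
  have ho : IsOpen ((fun g : G => k * g * k⁻¹ * g⁻¹) ⁻¹' {c}ᶜ) :=
    isOpen_compl_singleton.preimage hc
  refine ho.mem_nhds ?_
  have h3 : k * (1 : G) * k⁻¹ * (1 : G)⁻¹ = 1 := by group
  rw [Set.mem_preimage, h3]
  exact fun h => hc1 h.symm

theorem comm_nhds_both (c : G) (hc1 : c ≠ 1) :
    ∃ U1 ∈ nhds (1 : G), ∃ U2 ∈ nhds (1 : G), ∀ g ∈ U1, ∀ k ∈ U2, g * k * g⁻¹ * k⁻¹ ≠ c := by
  have hcont : Continuous (fun p : G × G => p.1 * p.2 * p.1⁻¹ * p.2⁻¹) := by fun_prop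
  have hopen : IsOpen ((fun p : G × G => p.1 * p.2 * p.1⁻¹ * p.2⁻¹) ⁻¹' {c}ᶜ) :=
    isOpen_compl_singleton.preimage hcont
  have h11 : ((1 : G), (1 : G)) ∈ (fun p : G × G => p.1 * p.2 * p.1⁻¹ * p.2⁻¹) ⁻¹' {c}ᶜ := by
    have h3 : (1 : G) * (1 : G) * (1 : G)⁻¹ * (1 : G)⁻¹ = 1 := by group
    rw [Set.mem_preimage, h3]
    exact fun h => hc1 h.symm
  obtain ⟨U1, hU1, U2, hU2, hsub⟩ := mem_nhds_prod_iff.1 (hopen.mem_nhds h11)
  exact ⟨U1, hU1, U2, hU2, fun g hg k hk => hsub (Set.mk_mem_prod hg hk)⟩

end general

/-- In no Hausdorff group topology do both families accumulate at the identity. -/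
theorem not_both (t : TopologicalSpace H) (ht : @IsTopologicalGroup H t _) (h2 : @T2Space H t)
    (hA : (1 : H) ∈ closure (Set.range ea)) (hB : (1 : H) ∈ closure (Set.range eb)) :
    False := by
  obtain ⟨U1, hU1, U2, hU2, hsub⟩ := comm_nhds_both ec ec_ne_one
  rw [mem_closure_iff_nhds] at hA hB
  rcases cross {i | ea i ∈ U1} {j | eb j ∈ U2}
    (fun i hi j hj hrel => hsub _ hi _ hj (commutator_of_rel hrel)) with ⟨w, hw⟩ | ⟨w, hw⟩
  · obtain ⟨g, ⟨hg1, hg2⟩, i, rfl⟩ :=
      hA _ (Filter.inter_mem hU1 (comm_nhds_left (eb w) ec ec_ne_one))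
    exact hg2 (commutator_of_rel (hw i hg1))
  · obtain ⟨g, ⟨hg1, hg2⟩, j, rfl⟩ :=
      hB _ (Filter.inter_mem hU2 (comm_nhds_right (ea w) ec ec_ne_one))
    exact hg2 (commutator_of_rel (hw j hg1))

theorem mk_H_le : #H ≤ Cardinal.aleph 1 := by
  have hinj : Function.Injective (fun g : H => ((g.a, g.b), g.z)) := by
    intro g k h
    simp only [Prod.mk.injEq] at h
    exact H.ext h.1.1 h.1.2 h.2
  refine (Cardinal.mk_le_of_injective hinj).trans ?_
  have hV : #V = Cardinal.aleph 1 := by
    rw [Cardinal.mk_finsupp_of_infinite, mk_W]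
    apply max_eq_left
    exact (Cardinal.mk_le_aleph0).trans (Cardinal.aleph0_le_aleph 1)
  rw [Cardinal.mk_prod, Cardinal.mk_prod]
  simp only [Cardinal.lift_id, hV]
  rw [Cardinal.mul_eq_self (Cardinal.aleph0_le_aleph 1)]
  refine (Cardinal.mul_le_max _ _).trans ?_
  refine max_le (max_le le_rfl ?_) (Cardinal.aleph0_le_aleph 1)
  exact (Cardinal.mk_le_aleph0).trans (Cardinal.aleph0_le_aleph 1)

end H

end Pool.Agent.H11.Markov
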