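import Mathlib

/-!
# Paratopological groups from a compact group and a wild homomorphism to an ordered group
-/

set_option autoImplicit false
set_option linter.unusedSectionVars false

open Set Topology Filter

namespace Pool.Agent.H11.OrderedPara

section construction

variable {K L : Type} [NormedAddCommGroup K] [AddCommGroup L] [LinearOrder L]
  [IsOrderedAddMonoid L]

/-- The multiplicative copy of `K` carrying the topology determined by `f`. -/
def PG (_f : K →+ L) : Type := Multiplicative K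

variable (f : K →+ L)

instance : CommGroup (PG f) := inferInstanceAs (CommGroup (Multiplicative K))

/-- The underlying element of `K`. -/
def toK : PG f → K := Multiplicative.toAdd
/-- The element of the group with given underlying element of `K`. -/
def ofK : K → PG f := Multiplicative.ofAdd

@[simp] theorem toK_ofK (x : K) : toK f (ofK f x) = x := rfl
@[simp] theorem ofK_toK (x : PG f) : ofK f (toK f x) = x := rfl
@[simp] theorem toK_mul (x y : PG f) : toK f (x * y) = toK f x + toK f y := rfl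
@[simp] theorem toK_inv (x : PG f) : toK f (x⁻¹) = - toK f x := rfl
@[simp] theorem toK_one : toK f 1 = 0 := rfl

theorem toK_injective : Function.Injective (toK f) := fun _ _ h => h

/-- A set is open if with each point `x` it contains all points `y` close to `x` in `K` with
`f x ≤ f y`. -/
instance : TopologicalSpace (PG f) where
  IsOpen U := ∀ x ∈ U, ∃ V ∈ 𝓝 (toK f x), ∀ y, toK f y ∈ V → f (toK f x) ≤ f (toK f y) → y ∈ U
  isOpen_univ := fun x _ => ⟨univ, univ_mem, fun _ _ _ => mem_univ _⟩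
  isOpen_inter := by
    intro U U' hU hU' x hx
    obtain ⟨V, hV, h⟩ := hU x hx.1
    obtain ⟨V', hV', h'⟩ := hU' x hx.2
    exact ⟨V ∩ V', inter_mem hV hV', fun y hy hf => ⟨h y hy.1 hf, h' y hy.2 hf⟩⟩
  isOpen_sUnion := by
    intro S hS x hx
    obtain ⟨U, hUS, hxU⟩ := hx
    obtain ⟨V, hV, h⟩ := hS U hUS x hxU
    exact ⟨V, hV, fun y hy hf => ⟨U, hUS, h y hy hf⟩⟩

theorem isOpen_iff (U : Set (PG f)) : IsOpen U ↔
    ∀ x ∈ U, ∃ V ∈ 𝓝 (toK f x), ∀ y, toK f y ∈ V → f (toK f x) ≤ f (toK f y) → y ∈ U := Iff.rfl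

theorem mem_nhds_iff' (x : PG f) (s : Set (PG f)) : s ∈ 𝓝 x ↔
    ∃ V ∈ 𝓝 (toK f x), ∀ y, toK f y ∈ V → f (toK f x) ≤ f (toK f y) → y ∈ s := by
  rw [mem_nhds_iff]
  constructor
  · rintro ⟨U, hUs, hU, hx⟩
    obtain ⟨V, hV, h⟩ := (isOpen_iff f U).1 hU x hx
    exact ⟨V, hV, fun y hy hf => hUs (h y hy hf)⟩
  · rintro ⟨V, hV, h⟩
    obtain ⟨V', hV'V, hV', hx⟩ := mem_nhds_iff.1 hV
    refine ⟨{y | toK f y ∈ V' ∧ f (toK f x) ≤ f (toK f y)}, ?_, ?_, ⟨hx, le_rfl⟩⟩
    · intro y hy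
      exact h y (hV'V hy.1) hy.2
    · intro y hy
      exact ⟨V', hV'.mem_nhds hy.1, fun z hz hf => ⟨hz, hy.2.trans hf⟩⟩

theorem continuous_toK : Continuous (toK f) := by
  rw [continuous_iff_continuousAt]
  intro x s hs
  rw [Filter.mem_map, mem_nhds_iff']
  exact ⟨s, hs, fun y hy _ => hy⟩

instance : ContinuousMul (PG f) := by
  refine ⟨?_⟩
  rw [continuous_iff_continuousAt]
  rintro ⟨x, y⟩ s hs
  rw [mem_nhds_iff'] at hs
  obtain ⟨V, hV, h⟩ := hs
  have hadd : Filter.Tendsto (fun p : K × K => p.1 + p.2) (𝓝 (toK f x) ×ˢ 𝓝 (toK f y))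
      (𝓝 (toK f x + toK f y)) := by
    rw [← nhds_prod_eq]
    exact continuous_add.continuousAt
  have hV2 : V ∈ 𝓝 (toK f x + toK f y) := hV
  obtain ⟨V1, hV1, V2, hV2, hsub⟩ := Filter.mem_prod_iff.1 (hadd hV2)
  rw [Filter.mem_map, nhds_prod_eq, Filter.mem_prod_iff]
  refine ⟨{z | toK f z ∈ V1 ∧ f (toK f x) ≤ f (toK f z)},
    (mem_nhds_iff' f _ _).2 ⟨V1, hV1, fun z hz hf => ⟨hz, hf⟩⟩,
    {z | toK f z ∈ V2 ∧ f (toK f y) ≤ f (toK f z)},
    (mem_nhds_iff' f _ _).2 ⟨V2, hV2, fun z hz hf => ⟨hz, hf⟩⟩, ?_⟩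
  rintro ⟨z, w⟩ ⟨hz, hw⟩
  refine h _ ?_ ?_
  · exact hsub (Set.mk_mem_prod hz.1 hw.1)
  · simp only [toK_mul, map_add]
    exact add_le_add hz.2 hw.2

instance : T2Space (PG f) :=
  T2Space.of_injective_continuous (toK_injective f) (continuous_toK f)

end construction

section baire

variable {K L : Type} [NormedAddCommGroup K] [CompactSpace K] [AddCommGroup L] [LinearOrder L]
  [IsOrderedAddMonoid L] (f : K →+ L)

theorem isMeagre_translate (k : K) {s : Set K} (hs : IsMeagre s) :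
    IsMeagre ((fun x => x + k) ⁻¹' s) :=
  hs.preimage_of_isOpenMap (by fun_prop) (isOpenMap_add_right k)

theorem isMeagre_neg {s : Set K} (hs : IsMeagre s) : IsMeagre ((fun x => - x) ⁻¹' s) :=
  hs.preimage_of_isOpenMap (by fun_prop) (Homeomorph.neg K).isOpenMap

/-- The upper level sets are nonmeagre in every nonempty open set. -/
theorem not_isMeagre_level (hcof : ∀ l : L, ∃ k : K, l ≤ f k) (l : L) {O : Set K} (hO : IsOpen O)
    (hne : O.Nonempty) : ¬ IsMeagre (O ∩ {x | l ≤ f x}) := by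
  intro hm
  obtain ⟨o, ho⟩ := hne
  -- finitely many translates of `O` cover `K`
  have hcover : (univ : Set K) ⊆ ⋃ k : K, (fun x => x + k) ⁻¹' O := by
    intro x _
    rw [mem_iUnion]
    exact ⟨-x + o, by simpa using ho⟩
  obtain ⟨t, ht⟩ := isCompact_univ.elim_finite_subcover (fun k : K => (fun x => x + k) ⁻¹' O)
    (fun k => hO.preimage (by fun_prop)) hcover
  -- a level above all the translated levels
  obtain ⟨l', hl'⟩ : ∃ l' : L, ∀ k ∈ t, l - f k ≤ l' := by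
    obtain ⟨M, hM⟩ := (t.image fun k => l - f k).bddAbove
    exact ⟨M, fun k hk => hM (by simpa using ⟨k, hk, rfl⟩)⟩
  have h1 : IsMeagre {x | l' ≤ f x} := by
    have h2 : IsMeagre (⋃ k : t, (fun x => x + (k : K)) ⁻¹' (O ∩ {x | l ≤ f x})) :=
      isMeagre_iUnion fun k => isMeagre_translate _ hm
    refine h2.mono ?_
    intro x hx
    have hx2 := ht (mem_univ x)
    simp only [mem_iUnion] at hx2
    obtain ⟨k, hk, hxk⟩ := hx2
    rw [mem_iUnion]
    refine ⟨⟨k, hk⟩, hxk, ?_⟩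
    have h3 : l - f k ≤ l' := hl' k hk
    have h4 : l' ≤ f x := hx
    show l ≤ f (x + k)
    rw [map_add]
    have := h3.trans h4
    rwa [sub_le_iff_le_add] at this
  obtain ⟨y, hy⟩ := hcof l'
  have h5 : IsMeagre {x | 0 ≤ f x} := by
    refine (isMeagre_translate y h1).mono ?_
    intro x hx
    show l' ≤ f (x + y)
    rw [map_add]
    have h6 : (0 : L) ≤ f x := hx
    exact hy.trans (le_add_of_nonneg_left h6)
  have h7 : IsMeagre (univ : Set K) := by
    refine (h5.union (isMeagre_neg h5)).mono ?_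
    intro x _
    rcases le_total 0 (f x) with h | h
    · exact Or.inl h
    · right
      show (0 : L) ≤ f (-x)
      rw [map_neg]
      exact neg_nonneg.2 h
  exact not_isMeagre_of_isOpen isOpen_univ ⟨o, mem_univ o⟩ h7

theorem exists_level (hcof : ∀ l : L, ∃ k : K, l ≤ f k) (l : L) {O : Set K} (hO : IsOpen O)
    (hne : O.Nonempty) : ∃ x ∈ O, l ≤ f x := by
  obtain ⟨x, hx⟩ := nonempty_of_not_isMeagre (not_isMeagre_level f hcof l hO hne)
  exact ⟨x, hx.1, hx.2⟩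

theorem baireSpace (hcof : ∀ l : L, ∃ k : K, l ≤ f k)
    (hbdd : ∀ C : Set L, C.Countable → BddAbove C) : BaireSpace (PG f) := by
  refine ⟨fun D hDo hDd => ?_⟩
  rw [dense_iff_inter_open]
  intro W hWo hWne
  obtain ⟨x0, hx0⟩ := hWne
  obtain ⟨V0, hV0, hV0W⟩ := (isOpen_iff f W).1 hWo x0 hx0
  obtain ⟨V, hVV0, hVo, hx0V⟩ := mem_nhds_iff.1 hV0
  -- choose for every `n` and every nonempty basic open set a witness
  have hchoice : ∀ (n : ℕ) (b : TopologicalSpace.countableBasis K), ∃ (x : K) (O : Set K),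
      IsOpen O ∧ x ∈ O ∧ O ⊆ (b : Set K) ∧ ∀ y, y ∈ O → f x ≤ f y → ofK f y ∈ D n := by
    intro n b
    have hbo : IsOpen (b : Set K) := TopologicalSpace.isOpen_of_mem_countableBasis b.2
    have hbne : (b : Set K).Nonempty := TopologicalSpace.nonempty_of_mem_countableBasis b.2
    have hbo' : IsOpen (toK f ⁻¹' (b : Set K)) := hbo.preimage (continuous_toK f)
    have hbne' : (toK f ⁻¹' (b : Set K)).Nonempty := ⟨ofK f hbne.some, hbne.some_mem⟩
    obtain ⟨x, hxb, hxD⟩ := (hDd n).inter_open_nonempty _ hbo' hbne'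
    obtain ⟨O, hO, hOD⟩ := (isOpen_iff f (D n)).1 (hDo n) x hxD
    obtain ⟨O', hO'O, hO'o, hxO'⟩ := mem_nhds_iff.1 hO
    exact ⟨toK f x, O' ∩ b, hO'o.inter hbo, ⟨hxO', hxb⟩, inter_subset_right,
      fun y hy hf => hOD (ofK f y) (hO'O hy.1) hf⟩
  choose x O hO hxO hOb hOD using hchoice
  obtain ⟨l, hl⟩ := hbdd ({f (toK f x0)} ∪ range (fun p : ℕ × TopologicalSpace.countableBasis K =>
    f (x p.1 p.2))) ((countable_singleton _).union (countable_range _))
  -- the dense open sets of `K`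
  have hΓo : ∀ n, IsOpen (⋃ b, O n b) := fun n => isOpen_iUnion fun b => hO n b
  have hΓd : ∀ n, Dense (⋃ b, O n b) := by
    intro n
    rw [(TopologicalSpace.isBasis_countableBasis K).dense_iff]
    intro o ho hone
    exact ⟨x n ⟨o, ho⟩, hOb n ⟨o, ho⟩ (hxO n ⟨o, ho⟩), mem_iUnion.2 ⟨⟨o, ho⟩, hxO n ⟨o, ho⟩⟩⟩
  have hmeagre : IsMeagre (⋂ n, ⋃ b, O n b)ᶜ := by
    rw [IsMeagre, compl_compl]
    refine (countable_iInter_mem).2 fun n => ?_
    exact residual_of_dense_open (hΓo n) (hΓd n)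
  have hex : ((V ∩ {x | l ≤ f x}) ∩ (⋂ n, ⋃ b, O n b)).Nonempty := by
    by_contra hcon
    rw [not_nonempty_iff_eq_empty, ← disjoint_iff_inter_eq_empty] at hcon
    exact not_isMeagre_level f hcof l hVo ⟨_, hx0V⟩ (hmeagre.mono (subset_compl_iff_disjoint_right.2 hcon))
  obtain ⟨z, ⟨hzV, hzl⟩, hzΓ⟩ := hex
  refine ⟨ofK f z, ?_, ?_⟩
  · exact hV0W _ (hVV0 hzV) ((hl (Or.inl rfl)).trans hzl)
  · rw [mem_iInter]
    intro n
    obtain ⟨b, hb⟩ := mem_iUnion.1 (mem_iInter.1 hzΓ n)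
    exact hOD n b z hb ((hl (Or.inr ⟨(n, b), rfl⟩)).trans hzl)

theorem finite_of_locallyFinite (hcof : ∀ l : L, ∃ k : K, l ≤ f k) {ι : Type}
    (U : ι → Set (PG f)) (hU : ∀ i, IsOpen (U i)) (hne : ∀ i, (U i).Nonempty)
    (hlf : LocallyFinite U) : Finite ι := by
  by_contra hinf
  rw [not_finite_iff_infinite] at hinf
  choose x hx using hne
  have hchoice : ∀ i, ∃ O : Set K, IsOpen O ∧ toK f (x i) ∈ O ∧
      ∀ y, y ∈ O → f (toK f (x i)) ≤ f y → ofK f y ∈ U i := by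
    intro i
    obtain ⟨O, hO, hOD⟩ := (isOpen_iff f (U i)).1 (hU i) (x i) (hx i)
    obtain ⟨O', hO'O, hO'o, hxO'⟩ := mem_nhds_iff.1 hO
    exact ⟨O', hO'o, hxO', fun y hy hf => hOD (ofK f y) (hO'O hy) hf⟩
  choose O hOo hxO hOU using hchoice
  obtain ⟨c, hc⟩ := exists_clusterPt_of_compactSpace (Filter.map (fun i => toK f (x i)) cofinite)
  obtain ⟨t, ht, hfin⟩ := hlf (ofK f c)
  obtain ⟨V0, hV0, hV0t⟩ := (mem_nhds_iff' f (ofK f c) t).1 ht
  obtain ⟨V, hVV0, hVo, hcV⟩ := mem_nhds_iff.1 hV0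
  -- infinitely many points lie in `V`
  have hinfV : {i | toK f (x i) ∈ V}.Infinite := by
    intro hf
    have h1 : {i | toK f (x i) ∈ V}ᶜ ∈ cofinite := hf.compl_mem_cofinite
    have h2 : Vᶜ ∈ Filter.map (fun i => toK f (x i)) cofinite := h1
    have h3 := (clusterPt_iff_nonempty.1 hc) (hVo.mem_nhds hcV) h2
    rw [inter_compl_self] at h3
    exact not_nonempty_empty h3
  refine hinfV (hfin.subset ?_)
  intro i hi
  obtain ⟨y, hy, hly⟩ := exists_level f hcof (max (f c) (f (toK f (x i)))) (hVo.inter (hOo i))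
    ⟨toK f (x i), hi, hxO i⟩
  exact ⟨ofK f y, hOU i y hy.2 ((le_max_right _ _).trans hly),
    hV0t (ofK f y) (hVV0 hy.1) ((le_max_left _ _).trans hly)⟩

theorem not_twoPseudocompact (hcof : ∀ l : L, ∃ k : K, l ≤ f k) (l0 : L) (hl0 : 0 < l0) :
    ∃ U : ℕ → Set (PG f), Antitone U ∧ (∀ n, IsOpen (U n)) ∧ (∀ n, (U n).Nonempty) ∧
      (⋂ n, closure (U n)⁻¹) = ∅ := by
  refine ⟨fun n => {y | ‖toK f y‖ < 1 / ((n : ℝ) + 1) ∧ l0 ≤ f (toK f y)}, ?_, ?_, ?_, ?_⟩
  · intro m n hmn y hy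
    refine ⟨hy.1.trans_le ?_, hy.2⟩
    exact Nat.one_div_le_one_div hmn
  · intro n y hy
    refine ⟨{z | ‖z‖ < 1 / ((n : ℝ) + 1)}, ?_, fun z hz hf => ⟨hz, hy.2.trans hf⟩⟩
    exact (isOpen_lt continuous_norm continuous_const).mem_nhds hy.1
  · intro n
    obtain ⟨x, hx, hlx⟩ := exists_level f hcof l0
      (isOpen_lt (continuous_norm (E := K)) (continuous_const (y := 1 / ((n : ℝ) + 1))))
      ⟨0, by simp only [mem_ofPred_eq, norm_zero]; positivity⟩
    exact ⟨ofK f x, hx, hlx⟩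
  · rw [eq_empty_iff_forall_notMem]
    intro x hx
    rw [mem_iInter] at hx
    have key : ∀ n : ℕ, f (toK f x) ≤ - l0 ∧ ‖toK f x‖ ≤ 1 / ((n : ℝ) + 1) + 1 / ((n : ℝ) + 1) := by
      intro n
      have h1 := (mem_closure_iff_nhds.1 (hx n)) {y | ‖toK f x - toK f y‖ < 1 / ((n : ℝ) + 1) ∧
        f (toK f x) ≤ f (toK f y)} (by
          rw [mem_nhds_iff']
          refine ⟨{y | ‖toK f x - y‖ < 1 / ((n : ℝ) + 1)}, ?_, fun y hy hf => ⟨hy, hf⟩⟩
          refine (isOpen_lt (by fun_prop) continuous_const).mem_nhds ?_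
          simp only [mem_ofPred_eq, sub_self, norm_zero]
          positivity)
      obtain ⟨y, ⟨hy1, hy2⟩, hy3⟩ := h1
      rw [Set.mem_inv] at hy3
      obtain ⟨hy4, hy5⟩ := hy3
      rw [toK_inv, norm_neg] at hy4
      rw [toK_inv, map_neg] at hy5
      refine ⟨hy2.trans (le_neg_of_le_neg hy5), ?_⟩
      calc ‖toK f x‖ = ‖(toK f x - toK f y) + toK f y‖ := by rw [sub_add_cancel]
        _ ≤ ‖toK f x - toK f y‖ + ‖toK f y‖ := norm_add_le _ _
        _ ≤ _ := add_le_add hy1.le hy4.le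
    have hzero : toK f x = 0 := by
      rw [← norm_le_zero_iff]
      have hlim : Tendsto (fun n : ℕ => 1 / ((n : ℝ) + 1) + 1 / ((n : ℝ) + 1)) atTop (𝓝 (0 + 0)) :=
        tendsto_one_div_add_atTop_nhds_zero_nat.add tendsto_one_div_add_atTop_nhds_zero_nat
      rw [add_zero] at hlim
      exact ge_of_tendsto' hlim fun n => (key n).2
    have h2 := (key 0).1
    rw [hzero, map_zero] at h2
    exact absurd (h2.trans_lt (neg_neg_of_pos hl0)) (lt_irrefl _)

end baire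

end Pool.Agent.H11.OrderedPara
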