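import Pool.Agent.H11.OrderedPara
import Pool.Agent.H11.MarkovClosure

set_option autoImplicit false

open Set Topology Filter Cardinal

namespace Pool.Agent.H11.OrderedPara

open Pool.Agent.H11.Markov (W exists_bound mk_W)

/-- The ordered group: finitely supported rational vectors indexed by `omega_1`, compared at the
largest index where they differ. -/
abbrev LL : Type := Colex (W →₀ ℚ)

theorem lt_single (c : W →₀ ℚ) (w : W) (hw : ∀ i ∈ c.support, i < w) (q : ℚ) (hq : 0 < q) :
    toColex c < toColex (Finsupp.single w q) := by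
  rw [Finsupp.Colex.lt_iff]
  have hcw : c w = 0 := by
    by_contra h
    exact lt_irrefl _ (hw w (Finsupp.mem_support_iff.2 h))
  refine ⟨w, ?_, ?_⟩
  · intro j hj
    have h1 : c j = 0 := by
      by_contra h
      exact lt_asymm hj (hw j (Finsupp.mem_support_iff.2 h))
    have h2 : (Finsupp.single w q) j = 0 := by
      rw [Finsupp.single_apply, if_neg hj.ne]
    show c j = (Finsupp.single w q) j
    rw [h1, h2]
  · show c w < (Finsupp.single w q) w
    rw [hcw, Finsupp.single_eq_same]
    exact hq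

theorem LL_bddAbove (C : Set LL) (hC : C.Countable) : BddAbove C := by
  obtain ⟨w, hw⟩ := exists_bound (⋃ c ∈ C, ((ofColex c).support : Set W))
    (hC.biUnion fun c _ => (Finset.countable_toSet _))
  refine ⟨toColex (Finsupp.single w 1), fun c hc => le_of_lt ?_⟩
  refine lt_single (ofColex c) w ?_ 1 one_pos
  intro i hi
  exact hw i (Set.mem_biUnion hc (by simpa using hi))

theorem exists_linearMap : ∃ g : ℚ_[2] →ₗ[ℚ] (W →₀ ℚ),
    ∀ w : W, ∃ x : ℚ_[2], g x = Finsupp.single w 1 := by
  let b := Module.Basis.ofVectorSpace ℚ ℚ_[2]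
  have hcard : #W ≤ #(Module.Basis.ofVectorSpaceIndex ℚ ℚ_[2]) := by
    rw [mk_W, Cardinal.aleph_one_le_iff]
    by_contra hcon
    rw [not_lt] at hcon
    have hcount : Countable (Module.Basis.ofVectorSpaceIndex ℚ ℚ_[2]) :=
      Cardinal.mk_le_aleph0_iff.1 hcon
    have h1 : Countable (Module.Basis.ofVectorSpaceIndex ℚ ℚ_[2] →₀ ℚ) := inferInstance
    have h2 : Countable ℚ_[2] := b.repr.toEquiv.countable_iff.2 h1
    have h3 := continuum_le_cardinal_of_nontriviallyNormedField ℚ_[2]
    have h4 : #ℚ_[2] ≤ ℵ₀ := Cardinal.mk_le_aleph0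
    exact absurd (h3.trans h4) (not_le.2 Cardinal.aleph0_lt_continuum)
  obtain ⟨e⟩ := hcard
  have _ : Nonempty W := inferInstance
  refine ⟨b.constr ℚ (fun i => Finsupp.single (Function.invFun e i) 1), fun w => ⟨b (e w), ?_⟩⟩
  rw [Module.Basis.constr_basis, Function.leftInverse_invFun e.injective]

/-- The chosen linear map. -/
noncomputable def g : ℚ_[2] →ₗ[ℚ] (W →₀ ℚ) := exists_linearMap.choose

theorem g_spec (w : W) : ∃ x : ℚ_[2], g x = Finsupp.single w 1 := exists_linearMap.choose_spec w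

/-- The homomorphism from the 2-adic integers to the ordered group. -/
noncomputable def ff : ℤ_[2] →+ LL where
  toFun x := toColex (g (x : ℚ_[2]))
  map_zero' := by
    simp
  map_add' := by
    intro x y
    simp

theorem ff_cofinal (l : LL) : ∃ k : ℤ_[2], l ≤ ff k := by
  obtain ⟨w, hw⟩ := exists_bound ((ofColex l).support : Set W) (Finset.countable_toSet _)
  obtain ⟨x, hx⟩ := g_spec w
  -- multiply by a power of two to become integral
  obtain ⟨n, hn⟩ : ∃ n : ℕ, ‖(2 : ℚ_[2]) ^ n * x‖ ≤ 1 := by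
    have h2 : ‖(2 : ℚ_[2])‖ < 1 := by
      have := Padic.norm_p_lt_one (p := 2)
      simpa using this
    have hlim : Tendsto (fun n : ℕ => ‖(2 : ℚ_[2])‖ ^ n * ‖x‖) atTop (𝓝 (0 * ‖x‖)) :=
      (tendsto_pow_atTop_nhds_zero_of_lt_one (norm_nonneg _) h2).mul_const _
    rw [zero_mul] at hlim
    obtain ⟨n, hn⟩ := (hlim.eventually (ge_mem_nhds one_pos)).exists
    exact ⟨n, by rw [norm_mul, norm_pow]; exact hn⟩
  refine ⟨⟨(2 : ℚ_[2]) ^ n * x, hn⟩, le_of_lt ?_⟩
  have h1 : g ((2 : ℚ_[2]) ^ n * x) = Finsupp.single w ((2 : ℚ) ^ n) := by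
    have h2 : (2 : ℚ_[2]) ^ n * x = ((2 : ℚ) ^ n) • x := by
      rw [Algebra.smul_def]
      simp
    rw [h2, map_smul, hx]
    simp
  show l < toColex (g ((2 : ℚ_[2]) ^ n * x))
  rw [h1]
  exact lt_single (ofColex l) w (fun i hi => hw i (by simpa using hi)) _ (by positivity)

theorem exists_pos : ∃ l : LL, 0 < l := by
  obtain ⟨w⟩ : Nonempty W := inferInstance
  refine ⟨toColex (Finsupp.single w 1), ?_⟩
  exact lt_single 0 w (by simp) 1 one_pos

/-- The counterexample: `ℤ_[2]` with the topology refined by `ff`. -/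
abbrev CE : Type := PG ff

end Pool.Agent.H11.OrderedPara
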